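import Pool.Agent.H341Q.PNMain

open Set Filter Topology Pool.Agent.H341Q.PN

namespace Pool.Agent.Results.MP_2087e7_lc.MeagerNullNotPerfectlyNull

universe u

/-- The Cantor space is Polish. -/
instance polishSpace_cantor : PolishSpace (ℕ → Bool) := { }

/-- The Cantor space has no isolated points. -/
instance perfectSpace_cantor : PerfectSpace (ℕ → Bool) := by
  constructor
  rw [preperfect_iff_nhds]
  intro x _ U hU
  obtain ⟨n, hn⟩ := exists_cyl hU
  refine ⟨Function.update x n (!(x n)), ⟨hn ?_, mem_univ _⟩, ?_⟩
  · intro i hi
    rw [Function.update_of_ne (by omega)]
  · intro h
    have := congrFun h n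
    rw [Function.update_self] at this
    cases hx : x n <;> simp [hx] at this

/-- Assume the continuum hypothesis. Then every nonempty perfect Polish space `X` contains a set
that is countably perfectly meager and universally null, but not countably perfectly null. In
particular such a set exists in the Cantor space. So it is not provable in ZFC that the
countably perfectly null sets are exactly the countably perfectly meager universally null sets. -/
theorem result (CH : Cardinal.continuum.{0} = Cardinal.aleph 1) :
    (∀ (X : Type u) [TopologicalSpace X] [PolishSpace X] [PerfectSpace X] [Nonempty X]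
      [MeasurableSpace X] [BorelSpace X],
      ∃ A : Set X, CountablyPerfectlyMeager A ∧ UniversallyNull A ∧
        ¬ CountablyPerfectlyNull A) ∧
    (∃ A : Set (ℕ → Bool), CountablyPerfectlyMeager A ∧ UniversallyNull A ∧
        ¬ CountablyPerfectlyNull A) :=
  ⟨fun _ => exists_general CH, exists_general CH⟩

end Pool.Agent.Results.MP_2087e7_lc.MeagerNullNotPerfectlyNull
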